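import Pool.Agent.Helper79_WRA.StmtB
import Pool.Agent.Helper75_WRA.Lam

/-!
WRA, module LAMBDA2: the stabiliser of a chain of `ℓ`-subgroups of the top group, explicitly.
-/

open scoped BigOperators

noncomputable section

namespace Pool.Agent.Helper79_WRA.H36

open Pool.Agent.Helper51_AWC

section

variable {G Ω L : Type} [Group G] [Group L] [MulAction L Ω]

omit [MulAction L Ω] in
theorem topP_eq {c : Finset (Subgroup L)} {P : Subgroup L} (hP : P ∈ c) (h : ∀ D ∈ c, D ≤ P) :
    topP c = P := by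
  unfold topP
  exact le_antisymm (iSup₂_le h) (le_iSup₂ (f := fun D (_ : D ∈ c) => D) P hP)

omit [MulAction L Ω] in
theorem topP_mem {c : Finset (Subgroup L)} (hne : c.Nonempty)
    (hch : IsChain (· ≤ ·) (c : Set (Subgroup L))) : topP c ∈ c ∧ ∀ D ∈ c, D ≤ topP c := by
  obtain ⟨P, hP, hmax⟩ := exists_greatest hch hne
  rw [topP_eq hP hmax]
  exact ⟨hP, hmax⟩

omit [MulAction L Ω] in
theorem le_topP {c : Finset (Subgroup L)} {D : Subgroup L} (hD : D ∈ c) : D ≤ topP c :=
  le_iSup₂ (f := fun D (_ : D ∈ c) => D) D hD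

theorem qq_smul {c : Finset (Subgroup L)} {l : L} (hl : l ∈ topP c) (i : Ω) :
    (qq c (l • i) : Dl c Ω) = qq c i := by
  rw [qq_eq_iff]
  exact ⟨l⁻¹, (topP c).inv_mem hl, inv_smul_smul _ _⟩

omit [Group G] in
theorem factor {c : Finset (Subgroup L)} {u : Ω → G} (h : ∀ l ∈ topP c, ∀ j, u (l • j) = u j) :
    ∃ f : Dl c Ω → G, ∀ i, f (qq c i) = u i := by
  refine ⟨Quotient.lift u ?_, fun i => rfl⟩
  intro i j hij
  have h1 : (qq c i : Dl c Ω) = qq c j := Quotient.sound hij
  obtain ⟨p, hp, rfl⟩ := qq_eq_iff.1 h1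
  exact (h p hp i).symm

/-- `base u` with `u` constant on the orbits commutes with the chain -/
theorem comm_base {c : Finset (Subgroup L)} (f : Dl c Ω → G) {d : L} (hd : d ∈ topP c) :
    (Wreath.base (fun i => f (qq c i)) * Wreath.top d * (Wreath.base (fun i => f (qq c i)))⁻¹ :
      Wreath G Ω L) = Wreath.top d := by
  apply Wreath.ext
  · funext j
    rw [H75.base_top_f, Wreath.top_f, qq_smul ((topP c).inv_mem hd), mul_inv_cancel]
  · rw [Wreath.conj_s, Wreath.base_s, one_mul, inv_one, mul_one]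

/-- if `base u` conjugates the elements of the top of the chain into the top group, then `u` is
constant on the orbits -/
theorem const_of_conj {c : Finset (Subgroup L)} {u : Ω → G}
    (h : ∀ l ∈ topP c, ∀ j, (Wreath.base u * Wreath.top l *
      (Wreath.base u)⁻¹ : Wreath G Ω L).f j = 1) : ∀ l ∈ topP c, ∀ j, u (l • j) = u j := by
  intro l hl j
  have h1 := h l hl (l • j)
  rw [H75.base_top_f, inv_smul_smul] at h1
  exact mul_inv_eq_one.1 h1

theorem mem_topc {c : Finset (Subgroup L)} {D : Subgroup (Wreath G Ω L)} :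
    D ∈ topc c G Ω ↔ ∃ E ∈ c, E.map (Wreath.top : L →* Wreath G Ω L) = D := by
  classical
  unfold topc
  rw [Finset.mem_image]

theorem iota_eq (c : Finset (Subgroup L)) (x : Wreath G (Dl c Ω) (stab c)) :
    iota c G Ω x = Wreath.base (fun i => x.f (qq c i)) * Wreath.top (x.s : L) := by
  rw [iota_apply]
  apply Wreath.ext
  · funext i
    rw [Wreath.mul_f, Wreath.base_f, Wreath.top_f, mul_one]
  · rw [Wreath.mul_s, Wreath.base_s, Wreath.top_s, one_mul]

theorem map_top_proj (D : Subgroup L) :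
    (D.map (Wreath.top : L →* Wreath G Ω L)).map (Wreath.proj : Wreath G Ω L →* L) = D := by
  rw [Subgroup.map_map]
  exact Subgroup.map_id D

theorem base_eq (x : Wreath G Ω L) : (Wreath.base x.f : Wreath G Ω L) = x * (Wreath.top x.s)⁻¹ := by
  rw [← map_inv]
  apply Wreath.ext
  · funext i
    rw [Wreath.mul_f, Wreath.base_f, Wreath.top_f, mul_one]
  · rw [Wreath.mul_s, Wreath.base_s, Wreath.top_s, mul_inv_cancel]

theorem iota_range {c : Finset (Subgroup L)} (hne : c.Nonempty)
    (hch : IsChain (· ≤ ·) (c : Set (Subgroup L))) :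
    (iota c G Ω).range = stab (topc c G Ω) := by
  obtain ⟨hPc, hPmax⟩ := topP_mem hne hch
  apply le_antisymm
  · rintro _ ⟨x, rfl⟩
    rw [mem_stab]
    intro D hD
    obtain ⟨E, hE, rfl⟩ := mem_topc.1 hD
    rw [iota_eq, ← conjS_conjS, H75.conjS_map_hom, mem_stab.1 x.s.2 E hE]
    apply H75.conj_id_of_comm
    rintro _ ⟨d, hd, rfl⟩
    exact comm_base x.f (hPmax E hE hd)
  · intro x hx
    rw [mem_stab] at hx
    have hx' : ∀ E ∈ c, conjS x (E.map (Wreath.top : L →* Wreath G Ω L)) = E.map Wreath.top :=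
      fun E hE => hx _ (mem_topc.2 ⟨E, hE, rfl⟩)
    have hxs : x.s ∈ stab c := by
      rw [mem_stab]
      intro E hE
      have h3 := H75.conjS_map_hom (Wreath.proj : Wreath G Ω L →* L) x (E.map Wreath.top)
      rw [hx' E hE, map_top_proj, Wreath.proj_apply] at h3
      exact h3
    have hb : ∀ E ∈ c, conjS (Wreath.base x.f : Wreath G Ω L) (E.map Wreath.top) =
        E.map Wreath.top := by
      intro E hE
      have h1 : conjS (Wreath.top x.s : Wreath G Ω L)⁻¹ (E.map Wreath.top) = E.map Wreath.top := by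
        rw [← map_inv, H75.conjS_map_hom, mem_stab.1 ((stab c).inv_mem hxs) E hE]
      rw [base_eq, ← conjS_conjS, h1, hx' E hE]
    have hu : ∀ l ∈ topP c, ∀ j, x.f (l • j) = x.f j := by
      apply const_of_conj (G := G)
      intro l hl j
      have h1 : (Wreath.base x.f * Wreath.top l * (Wreath.base x.f)⁻¹ : Wreath G Ω L) ∈
          (topP c).map (Wreath.top : L →* Wreath G Ω L) := by
        rw [← hb (topP c) hPc, mem_conjS]
        have e : (Wreath.base x.f : Wreath G Ω L)⁻¹ * (Wreath.base x.f * Wreath.top l *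
          (Wreath.base x.f)⁻¹) * Wreath.base x.f = Wreath.top l := by group
        rw [e]; exact ⟨l, hl, rfl⟩
      obtain ⟨m, _, hm⟩ := h1
      rw [← hm, Wreath.top_f]
    obtain ⟨f, hf⟩ := factor hu
    refine ⟨⟨f, ⟨x.s, hxs⟩⟩, ?_⟩
    rw [iota_apply]
    apply Wreath.ext
    · funext i
      exact hf i
    · rfl

theorem iota_base (c : Finset (Subgroup L)) (f : Dl c Ω → G) :
    iota c G Ω (Wreath.base f) = Wreath.base (fun i => f (qq c i)) := rfl

theorem cent_topc {c : Finset (Subgroup L)} (hne : c.Nonempty)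
    (hch : IsChain (· ≤ ·) (c : Set (Subgroup L))) :
    cent (Wreath.base : (Ω → G) →* Wreath G Ω L).range (topc c G Ω) =
      ((iota c G Ω).comp (Wreath.base : (Dl c Ω → G) →* Wreath G (Dl c Ω) (stab c))).range := by
  obtain ⟨hPc, hPmax⟩ := topP_mem hne hch
  apply le_antisymm
  · intro x hx
    unfold cent at hx
    rw [Subgroup.mem_inf] at hx
    obtain ⟨⟨u, rfl⟩, hx2⟩ := hx
    simp only [Subgroup.mem_iInf] at hx2
    have hu : ∀ l ∈ topP c, ∀ j, u (l • j) = u j := by
      apply const_of_conj (G := G)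
      intro l hl j
      have h1 := Subgroup.mem_centralizer_iff.1 (hx2 _ (mem_topc.2 ⟨_, hPc, rfl⟩))
        (Wreath.top l) ⟨l, hl, rfl⟩
      have h2 : (Wreath.base u * Wreath.top l * (Wreath.base u)⁻¹ : Wreath G Ω L) =
          Wreath.top l := by
        rw [← h1]; group
      rw [h2, Wreath.top_f]
    obtain ⟨f, hf⟩ := factor hu
    refine ⟨f, ?_⟩
    show iota c G Ω (Wreath.base f) = Wreath.base u
    rw [iota_base]
    congr 1
    funext i
    exact hf i
  · rintro _ ⟨f, rfl⟩
    show iota c G Ω (Wreath.base f) ∈ _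
    rw [iota_base]
    unfold cent
    rw [Subgroup.mem_inf]
    refine ⟨⟨_, rfl⟩, ?_⟩
    simp only [Subgroup.mem_iInf]
    intro D hD
    obtain ⟨E, hE, rfl⟩ := mem_topc.1 hD
    rw [Subgroup.mem_centralizer_iff]
    rintro _ ⟨d, hd, rfl⟩
    have h1 := comm_base f (hPmax E hE hd)
    exact (mul_inv_eq_iff_eq_mul.1 h1).symm

end

/-- LAMBDA2 -/
theorem lambda2 : Lambda2Stmt := by
  classical
  intro ℓ _ G Ω L _ _ _ _ _ _ c hp hne hch
  obtain ⟨hPc, hPmax⟩ := topP_mem hne hch
  have hPp := hp _ hPc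
  refine ⟨hPc, hPmax, ?_, ?_, ?_, iota_range hne hch, cent_topc hne hch, ?_, ?_⟩
  · intro x y hxy
    rw [iota_apply, iota_apply] at hxy
    have h1 := congrArg Wreath.f hxy
    have h2 := congrArg Wreath.s hxy
    apply Wreath.ext
    · funext j
      obtain ⟨i, rfl⟩ := qq_surjective c j
      exact congrFun h1 i
    · exact Subtype.ext h2
  · intro D hD
    obtain ⟨E, hE, rfl⟩ := mem_topc.1 hD
    exact (hp E hE).map _
  · intro D hD D' hD' _
    obtain ⟨E, hE, rfl⟩ := mem_topc.1 (Finset.mem_coe.1 hD)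
    obtain ⟨E', hE', rfl⟩ := mem_topc.1 (Finset.mem_coe.1 hD')
    rcases chain_total hch hE hE' with h | h
    · left; exact Subgroup.map_mono h
    · right; exact Subgroup.map_mono h
  · exact ⟨hPp, fun x => rfl, qq_surjective c, Subgroup.subtype_injective _, fun k i => rfl,
      fun i i' => qq_eq_iff, fun k => conjS_topP k.2⟩
  · intro j
    obtain ⟨i, rfl⟩ := qq_surjective c j
    obtain ⟨n, hn⟩ := hPp.card_orbit i
    refine ⟨n, ?_⟩
    rw [← hn]
    apply Nat.card_congr
    apply Equiv.subtypeEquivRight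
    intro i'
    rw [MulAction.mem_orbit_iff]
    constructor
    · intro h
      obtain ⟨p, hp', h'⟩ := qq_eq_iff.1 h.symm
      exact ⟨⟨p, hp'⟩, h'⟩
    · rintro ⟨p, rfl⟩
      exact qq_smul p.2 i

end Pool.Agent.Helper79_WRA.H36
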