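import Pool.Agent.Helper36_WRA.Lambda2

/-!
WRA, module SUMC: the sum over the chains of `ℓ`-subgroups meeting the base group trivially, in
terms of chains of the top group.
-/

open scoped BigOperators

noncomputable section

namespace Pool.Agent.Helper79_WRA.H36

open Pool.Agent.Helper51_AWC

theorem card_fib {A B : Type*} [Group A] [Finite A] (H : Subgroup A) (Φ : A → B)
    (h : ∀ a b, Φ a = Φ b ↔ a⁻¹ * b ∈ H) :
    Nat.card A = Nat.card (Set.range Φ) * Nat.card H := by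
  rw [H.card_eq_card_quotient_mul_card_subgroup]
  congr 1
  let F : A ⧸ H → Set.range Φ := fun q => Quotient.liftOn' q (fun a => ⟨Φ a, a, rfl⟩) (by
    intro a b hab
    apply Subtype.ext
    rw [QuotientGroup.leftRel_apply] at hab
    exact (h a b).2 hab)
  apply Nat.card_congr
  apply Equiv.ofBijective F
  constructor
  · intro p q hpq
    induction p using Quotient.inductionOn' with
    | h a =>
      induction q using Quotient.inductionOn' with
      | h b =>
        have h1 : Φ a = Φ b := congrArg Subtype.val hpq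
        apply Quotient.sound'
        rw [QuotientGroup.leftRel_apply]
        exact (h a b).1 h1
  · rintro ⟨_, a, rfl⟩
    exact ⟨Quotient.mk'' a, rfl⟩

section

variable {G Ω L : Type} [Group G] [Group L] [MulAction L Ω]

theorem base_range_eq_ker :
    (Wreath.base : (Ω → G) →* Wreath G Ω L).range = (Wreath.proj : Wreath G Ω L →* L).ker := by
  ext x
  rw [Wreath.mem_base_range, MonoidHom.mem_ker, Wreath.proj_apply]

theorem base_normal : ((Wreath.base : (Ω → G) →* Wreath G Ω L).range).Normal := by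
  rw [base_range_eq_ker]
  infer_instance

theorem conjS_base_proj (g : Ω → G) (D : Subgroup (Wreath G Ω L)) :
    (conjS (Wreath.base g) D).map (Wreath.proj : Wreath G Ω L →* L) = D.map Wreath.proj := by
  rw [← H75.conjS_map_hom, Wreath.proj_apply, Wreath.base_s, conjS_one]

theorem map_proj_top {D : Subgroup (Wreath G Ω L)}
    (hD : D ≤ (Wreath.top : L →* Wreath G Ω L).range) :
    (D.map (Wreath.proj : Wreath G Ω L →* L)).map (Wreath.top : L →* Wreath G Ω L) = D := by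
  ext y
  constructor
  · rintro ⟨_, ⟨d, hd, rfl⟩, rfl⟩
    obtain ⟨l, rfl⟩ := hD hd
    exact hd
  · intro hd
    obtain ⟨l, rfl⟩ := hD hd
    exact ⟨l, ⟨_, hd, rfl⟩, rfl⟩

theorem inf_base_top (E : Subgroup L) :
    E.map (Wreath.top : L →* Wreath G Ω L) ⊓ (Wreath.base : (Ω → G) →* Wreath G Ω L).range = ⊥ := by
  rw [eq_bot_iff]
  intro x hx
  obtain ⟨⟨l, _, rfl⟩, h2⟩ := Subgroup.mem_inf.1 hx
  rw [Wreath.mem_base_range] at h2
  have : l = 1 := h2
  rw [this, map_one]
  exact Subgroup.one_mem _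

theorem conjS_inf_bot {A : Type} [Group A] {N D : Subgroup A} (hN : N.Normal) (g : A)
    (h : D ⊓ N = ⊥) : conjS g D ⊓ N = ⊥ := by
  rw [eq_bot_iff] at h ⊢
  intro x hx
  obtain ⟨h1, h2⟩ := Subgroup.mem_inf.1 hx
  rw [mem_conjS] at h1
  have h3 : g⁻¹ * x * g ∈ D ⊓ N := Subgroup.mem_inf.2 ⟨h1, by
    have := hN.conj_mem x h2 g⁻¹
    rwa [inv_inv] at this⟩
  have h4 := Subgroup.mem_bot.1 (h h3)
  rw [Subgroup.mem_bot]
  have e : x = g * (g⁻¹ * x * g) * g⁻¹ := by group
  rw [e, h4]; group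

open Classical in
/-- the projection of a chain -/
def prc (d : Finset (Subgroup (Wreath G Ω L))) : Finset (Subgroup L) :=
  d.image (fun D => D.map (Wreath.proj : Wreath G Ω L →* L))

open Classical in
/-- the base conjugates of the chain of the top group -/
def bc (c : Finset (Subgroup L)) (g : Ω → G) : Finset (Subgroup (Wreath G Ω L)) :=
  (topc c G Ω).image (conjS (Wreath.base g))

theorem mem_bc {c : Finset (Subgroup L)} {g : Ω → G} {D : Subgroup (Wreath G Ω L)} :
    D ∈ bc c g ↔ ∃ E ∈ c, conjS (Wreath.base g) (E.map (Wreath.top : L →* Wreath G Ω L)) = D := by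
  classical
  unfold bc
  rw [Finset.mem_image]
  constructor
  · rintro ⟨D', hD', rfl⟩
    obtain ⟨E, hE, rfl⟩ := mem_topc.1 hD'
    exact ⟨E, hE, rfl⟩
  · rintro ⟨E, hE, rfl⟩
    exact ⟨_, mem_topc.2 ⟨E, hE, rfl⟩, rfl⟩

theorem mem_prc {d : Finset (Subgroup (Wreath G Ω L))} {E : Subgroup L} :
    E ∈ prc d ↔ ∃ D ∈ d, D.map (Wreath.proj : Wreath G Ω L →* L) = E := by
  classical
  unfold prc
  rw [Finset.mem_image]

theorem prc_bc (c : Finset (Subgroup L)) (g : Ω → G) : prc (bc c g) = c := by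
  ext E
  rw [mem_prc]
  constructor
  · rintro ⟨D, hD, rfl⟩
    obtain ⟨E, hE, rfl⟩ := mem_bc.1 hD
    rw [conjS_base_proj, map_top_proj]
    exact hE
  · intro hE
    exact ⟨_, mem_bc.2 ⟨E, hE, rfl⟩, by rw [conjS_base_proj, map_top_proj]⟩

theorem prc_card {d : Finset (Subgroup (Wreath G Ω L))}
    (hch : IsChain (· ≤ ·) (d : Set (Subgroup (Wreath G Ω L))))
    (hN : ∀ D ∈ d, D ⊓ (Wreath.base : (Ω → G) →* Wreath G Ω L).range = ⊥) :
    (prc d).card = d.card := by
  classical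
  unfold prc
  apply Finset.card_image_of_injOn
  have key : ∀ D ∈ d, ∀ D' ∈ d, D ≤ D' →
      D.map (Wreath.proj : Wreath G Ω L →* L) = D'.map Wreath.proj → D = D' := by
    intro D _ D' hD' hle h
    apply le_antisymm hle
    intro x hx
    have h1 : Wreath.proj x ∈ D.map (Wreath.proj : Wreath G Ω L →* L) := by
      rw [h]; exact ⟨x, hx, rfl⟩
    obtain ⟨y, hy, hyx⟩ := h1
    have h2 : y⁻¹ * x ∈ D' ⊓ (Wreath.base : (Ω → G) →* Wreath G Ω L).range := by
      rw [Subgroup.mem_inf]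
      refine ⟨D'.mul_mem (D'.inv_mem (hle hy)) hx, ?_⟩
      rw [base_range_eq_ker, MonoidHom.mem_ker, map_mul, map_inv, hyx, inv_mul_cancel]
    rw [hN D' hD', Subgroup.mem_bot] at h2
    have h3 : x = y := (inv_mul_eq_one.1 h2).symm
    rw [h3]; exact hy
  intro D hD D' hD' h
  rcases chain_total hch hD hD' with hle | hle
  · exact key D hD D' hD' hle h
  · exact (key D' hD' D hD hle h.symm).symm

theorem bc_eq_iff {c : Finset (Subgroup L)} (g g' : Ω → G) :
    bc c g = bc c g' ↔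
      g⁻¹ * g' ∈ (stab (topc c G Ω)).comap (Wreath.base : (Ω → G) →* Wreath G Ω L) := by
  classical
  rw [Subgroup.mem_comap, mem_stab]
  constructor
  · intro h D hD
    obtain ⟨E, hE, rfl⟩ := mem_topc.1 hD
    have h1 : conjS (Wreath.base g') (E.map (Wreath.top : L →* Wreath G Ω L)) ∈ bc c g := by
      rw [h]; exact mem_bc.2 ⟨E, hE, rfl⟩
    obtain ⟨E', hE', h2⟩ := mem_bc.1 h1
    have h3 : E' = E := by
      have := congrArg (Subgroup.map (Wreath.proj : Wreath G Ω L →* L)) h2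
      rw [conjS_base_proj, conjS_base_proj, map_top_proj, map_top_proj] at this
      exact this
    subst h3
    rw [map_mul, ← conjS_conjS, ← h2, conjS_conjS, map_inv, inv_mul_cancel, conjS_one]
  · intro h
    have h' : ∀ E ∈ c, conjS (Wreath.base g') (E.map (Wreath.top : L →* Wreath G Ω L)) =
        conjS (Wreath.base g) (E.map Wreath.top) := by
      intro E hE
      have h1 := h _ (mem_topc.2 ⟨E, hE, rfl⟩)
      have h2 := congrArg (conjS (Wreath.base g)) h1
      rw [conjS_conjS, ← map_mul, mul_inv_cancel_left] at h2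
      exact h2
    ext D
    rw [mem_bc, mem_bc]
    constructor
    · rintro ⟨E, hE, rfl⟩
      exact ⟨E, hE, h' E hE⟩
    · rintro ⟨E, hE, rfl⟩
      exact ⟨E, hE, (h' E hE).symm⟩

theorem card_stab_base [Finite Ω] {c : Finset (Subgroup L)} (hne : c.Nonempty)
    (hch : IsChain (· ≤ ·) (c : Set (Subgroup L))) :
    Nat.card ((stab (topc c G Ω)).comap (Wreath.base : (Ω → G) →* Wreath G Ω L)) =
      Nat.card G ^ Nat.card (Dl c Ω) := by
  rw [← Nat.card_fun]
  symm
  let F : (Dl c Ω → G) → (stab (topc c G Ω)).comap (Wreath.base : (Ω → G) →* Wreath G Ω L) :=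
    fun f => ⟨fun i => f (qq c i), by
      rw [Subgroup.mem_comap, ← iota_range hne hch]
      exact ⟨Wreath.base f, iota_base c f⟩⟩
  apply Nat.card_congr
  apply Equiv.ofBijective F
  constructor
  · intro f f' h
    funext j
    obtain ⟨i, rfl⟩ := qq_surjective c j
    exact congrFun (congrArg Subtype.val h) i
  · rintro ⟨u, hu⟩
    have hu' := hu
    rw [Subgroup.mem_comap, ← iota_range hne hch] at hu'
    obtain ⟨x, hx⟩ := hu'
    refine ⟨x.f, ?_⟩
    apply Subtype.ext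
    have := congrArg Wreath.f hx
    rw [Wreath.base_f, iota_apply] at this
    exact this

end

/-- SUMC -/
theorem sumc (hT0 : TZeroStmt) (hTC : TConjStmt) (hTw : TwistStmt) : SumcStmt := by
  classical
  intro ℓ _ G Ω L _ _ _ _ _ _ w hw hcore r hr
  set N : Subgroup (Wreath G Ω L) := (Wreath.base : (Ω → G) →* Wreath G Ω L).range with hNdef
  have hN : N.Normal := base_normal
  set S := (chainsOn (psub ℓ (Wreath G Ω L)) ⊥).filter (fun c => ∀ D ∈ c, D ⊓ N = ⊥) with hS
  set T := chainsOn (psubIn ℓ (⊤ : Subgroup L)) ⊥ with hT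
  have hmS : ∀ d, d ∈ S ↔ ((∀ D ∈ d, IsPGroup ℓ D) ∧ ⊥ ∈ d ∧
      IsChain (· ≤ ·) (d : Set (Subgroup (Wreath G Ω L)))) ∧ ∀ D ∈ d, D ⊓ N = ⊥ := by
    intro d
    rw [hS, Finset.mem_filter, mem_chainsOn]
    constructor
    · rintro ⟨⟨h1, h2, h3⟩, h4⟩
      exact ⟨⟨fun D hD => (mem_psub.1 (h1 hD)).2, h2, h3⟩, h4⟩
    · rintro ⟨⟨h1, h2, h3⟩, h4⟩
      refine ⟨⟨fun D hD => mem_psub.2 ⟨?_, h1 D hD⟩, h2, h3⟩, h4⟩
      rw [hcore]; exact bot_le
  have hmT : ∀ c, c ∈ T ↔ (∀ D ∈ c, IsPGroup ℓ D) ∧ ⊥ ∈ c ∧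
      IsChain (· ≤ ·) (c : Set (Subgroup L)) := by
    intro c
    rw [hT, mem_chainsOn]
    constructor
    · rintro ⟨h1, h2, h3⟩
      exact ⟨fun D hD => (mem_psubIn.1 (h1 hD)).2, h2, h3⟩
    · rintro ⟨h1, h2, h3⟩
      exact ⟨fun D hD => mem_psubIn.2 ⟨le_top, h1 D hD⟩, h2, h3⟩
  have hpr : ∀ d ∈ S, prc d ∈ T := by
    intro d hd
    obtain ⟨⟨h1, h2, h3⟩, h4⟩ := (hmS d).1 hd
    rw [hmT]
    refine ⟨?_, ?_, ?_⟩
    · intro E hE
      obtain ⟨D, hD, rfl⟩ := mem_prc.1 hE
      exact (h1 D hD).map _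
    · exact mem_prc.2 ⟨⊥, h2, Subgroup.map_bot _⟩
    · intro E hE E' hE' _
      obtain ⟨D, hD, rfl⟩ := mem_prc.1 (Finset.mem_coe.1 hE)
      obtain ⟨D', hD', rfl⟩ := mem_prc.1 (Finset.mem_coe.1 hE')
      rcases chain_total h3 hD hD' with h | h
      · left; exact Subgroup.map_mono h
      · right; exact Subgroup.map_mono h
  rw [← Finset.sum_fiberwise_of_maps_to hpr, Finset.mul_sum]
  apply Finset.sum_congr rfl
  intro c hc
  have hc' := hc
  rw [hmT] at hc'
  obtain ⟨hc1, hc2, hc3⟩ := hc'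
  have hcne : c.Nonempty := ⟨⊥, hc2⟩
  -- the base conjugates
  have hfin : (Set.range (bc c : (Ω → G) → _)).Finite := Set.finite_range _
  set B := hfin.toFinset with hB
  have hmB : ∀ d, d ∈ B ↔ ∃ g, bc c g = d := by
    intro d
    rw [hB, Set.Finite.mem_toFinset]; rfl
  have hBS : B ⊆ S.filter (fun d => prc d = c) := by
    intro d hd
    obtain ⟨g, rfl⟩ := (hmB d).1 hd
    rw [Finset.mem_filter]
    refine ⟨?_, prc_bc c g⟩
    rw [hmS]
    refine ⟨⟨?_, ?_, ?_⟩, ?_⟩
    · intro D hD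
      obtain ⟨E, hE, rfl⟩ := mem_bc.1 hD
      exact conjS_pgroup ((hc1 E hE).map _)
    · refine mem_bc.2 ⟨⊥, hc2, ?_⟩
      rw [Subgroup.map_bot]
      exact Subgroup.map_bot _
    · intro D hD D' hD' _
      obtain ⟨E, hE, rfl⟩ := mem_bc.1 (Finset.mem_coe.1 hD)
      obtain ⟨E', hE', rfl⟩ := mem_bc.1 (Finset.mem_coe.1 hD')
      rcases chain_total hc3 hE hE' with h | h
      · left; exact conjS_mono.2 (Subgroup.map_mono h)
      · right; exact conjS_mono.2 (Subgroup.map_mono h)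
    · intro D hD
      obtain ⟨E, hE, rfl⟩ := mem_bc.1 hD
      exact conjS_inf_bot hN _ (inf_base_top E)
  have hzero : ∀ d ∈ S.filter (fun d => prc d = c), d ∉ B →
      (-1 : ℤ) ^ (d.card + 1) * tsum ℓ N w d = 0 := by
    intro d hd hdB
    obtain ⟨hdS, hdc⟩ := Finset.mem_filter.1 hd
    obtain ⟨⟨h1, h2, h3⟩, h4⟩ := (hmS d).1 hdS
    rcases hTw ℓ G Ω L d h1 ⟨⊥, h2⟩ h3 h4 with h | ⟨g, hg⟩
    · rw [hT0 ℓ (Wreath G Ω L) N hN w d h, mul_zero]
    · exfalso
      apply hdB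
      rw [hmB]
      refine ⟨g⁻¹, ?_⟩
      have key : ∀ D ∈ d, conjS (Wreath.base g⁻¹)
          ((D.map (Wreath.proj : Wreath G Ω L →* L)).map (Wreath.top : L →* Wreath G Ω L)) = D := by
        intro D hD
        have e1 := map_proj_top (hg D hD)
        rw [conjS_base_proj] at e1
        rw [e1, conjS_conjS, ← map_mul, inv_mul_cancel, map_one, conjS_one]
      ext D
      rw [mem_bc]
      constructor
      · rintro ⟨E, hE, rfl⟩
        rw [← hdc] at hE
        obtain ⟨D, hD, rfl⟩ := mem_prc.1 hE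
        rw [key D hD]; exact hD
      · intro hD
        refine ⟨D.map Wreath.proj, ?_, key D hD⟩
        rw [← hdc]
        exact mem_prc.2 ⟨D, hD, rfl⟩
  rw [← Finset.sum_subset hBS hzero]
  have hval : ∀ d ∈ B, (-1 : ℤ) ^ (d.card + 1) * tsum ℓ N w d =
      (-1) ^ (c.card + 1) * ((Nat.card G : ℤ) ^ Nat.card (Dl c Ω) * r c) := by
    intro d hd
    have hd' := Finset.mem_filter.1 (hBS hd)
    obtain ⟨⟨h1, h2, h3⟩, h4⟩ := (hmS d).1 hd'.1
    have h5 : d.card = c.card := by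
      rw [← prc_card h3 h4, hd'.2]
    obtain ⟨g, rfl⟩ := (hmB d).1 hd
    rw [h5, ← hr c hc]
    congr 1
    exact hTC ℓ (Wreath G Ω L) N hN w hw (Wreath.base g) (topc c G Ω)
  rw [Finset.sum_congr rfl hval, Finset.sum_const, nsmul_eq_mul]
  have hcard := card_fib _ (bc c : (Ω → G) → _) bc_eq_iff
  rw [card_stab_base hcne hc3, Nat.card_fun] at hcard
  have hBc : Nat.card (Set.range (bc c : (Ω → G) → _)) = B.card := by
    rw [hB, Nat.card_coe_set_eq, Set.ncard_eq_toFinset_card _ hfin]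
  rw [hBc] at hcard
  have hcard' : (Nat.card G : ℤ) ^ Nat.card Ω = B.card * (Nat.card G : ℤ) ^ Nat.card (Dl c Ω) := by
    exact_mod_cast hcard
  rw [hcard']
  ring

end Pool.Agent.Helper79_WRA.H36
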